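import Mathlib

/-!
# MP_93f727_an

The proposed formula for the shifted generating function of the continuous dual `q`-Hahn
polynomials fails at `n = 1` for every `q` in `(-1,1)` and all real `a, b, c` with `a*b*c ≠ 0`.
-/

namespace Pool.Agent.Results.MP_93f727_an.FailsAtOne

open PowerSeries

/-- The finite `q`-shifted factorial `(α;q)_n = ∏_{j<n} (1 - α q^j)` in a commutative ring. -/
def qPoch {R : Type*} [CommRing R] (α q : R) (n : ℕ) : R :=
  ∏ j ∈ Finset.range n, (1 - α * q ^ j)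

/-- The Gaussian binomial coefficient `(q;q)_n / ((q;q)_i (q;q)_{n-i})`. -/
noncomputable def qBinom (q : ℝ) (n i : ℕ) : ℝ :=
  qPoch q q n / (qPoch q q i * qPoch q q (n - i))

/-- The continuous dual `q`-Hahn polynomials `ψ_n(x|a,b,c,q)` by their three-term recurrence. -/
def psi {R : Type*} [CommRing R] (x a b c q : R) : ℕ → R
  | 0 => 1
  | 1 => 2 * x - (a + b + c - a * b * c)
  | (n + 2) =>
      (2 * x - ((a + b + c) * q ^ (n + 1) +
          a * b * c * q ^ n * (1 - q ^ (n + 1) - q ^ (n + 2)))) * psi x a b c q (n + 1)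
        - (1 - q ^ (n + 1)) *
          ((1 - a * b * q ^ n) * (1 - a * c * q ^ n) * (1 - b * c * q ^ n)) * psi x a b c q n

/-- The shifted generating function `G_n(t) = ∑_i t^i ψ_{i+n}(x|a,b,c,q) / (q;q)_i`. -/
noncomputable def G (x a b c q : ℝ) (n : ℕ) : ℝ⟦X⟧ :=
  PowerSeries.mk fun i => psi x a b c q (i + n) / qPoch q q i

/-- The Askey-Wilson polynomial `AW_n(x|a,b,c,t,q)`, whose fourth parameter is the power series
variable `t`, as a power series in `t`. -/
noncomputable def AW (x a b c q : ℝ) (n : ℕ) : ℝ⟦X⟧ :=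
  ∑ i ∈ Finset.range (n + 1),
    C (qBinom q n i) * (-C a) ^ (n - i) * C q ^ (n - i).choose 2 *
      (qPoch (C b * C c * C q ^ i) (C q) (n - i) * qPoch (C b * X * C q ^ i) (C q) (n - i) *
        qPoch (C c * X * C q ^ i) (C q) (n - i)) *
      (qPoch (C a * C b * C c * X * C q ^ (n + i - 1)) (C q) (n - i))⁻¹ *
      psi (C x) (C b) (C c) X (C q) i

/-- The product `(at,bt,ct;q)_n` as a power series in `t`. -/
noncomputable def P (a b c q : ℝ) (n : ℕ) : ℝ⟦X⟧ :=
  qPoch (C a * X) (C q) n * qPoch (C b * X) (C q) n * qPoch (C c * X) (C q) n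

/-- The right side of the proposed formula. -/
noncomputable def rhs (x a b c q : ℝ) (n : ℕ) : ℝ⟦X⟧ :=
  AW x a b c q n * (P a b c q n)⁻¹ * G x a b c q 0

theorem P_one (a b c q : ℝ) :
    P a b c q 1 = (1 - C a * X) * (1 - C b * X) * (1 - C c * X) := by
  simp [P, qPoch]

theorem AW_one (x a b c q : ℝ) (hq : -1 < q ∧ q < 1) :
    AW x a b c q 1 * (1 - C a * C b * C c * X) =
      (2 * C x - (C b + C c + X - C b * C c * X)) * (1 - C a * C b * C c * X)
        - C a * ((1 - C b * C c) * (1 - C b * X) * (1 - C c * X)) := by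
  have h1 : (1 - q) ≠ 0 := by linarith [hq.2]
  have hu : constantCoeff (1 - C a * C b * C c * X : ℝ⟦X⟧) ≠ 0 := by simp
  have hinv : (1 - C a * C b * C c * X : ℝ⟦X⟧)⁻¹ * (1 - C a * C b * C c * X) = 1 :=
    PowerSeries.inv_mul_cancel _ hu
  have e0 : qBinom q 1 0 = 1 := by simp [qBinom, qPoch, h1]
  have e1 : qBinom q 1 1 = 1 := by simp [qBinom, qPoch, h1]
  simp only [AW, Finset.sum_range_succ, Finset.sum_range_zero, e0, e1]
  simp only [qPoch, psi, Nat.sub_self, Finset.range_zero, Finset.prod_empty, pow_zero, mul_one,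
    Nat.sub_zero, pow_one, Finset.prod_range_succ, Finset.prod_range_zero, one_mul, map_one,
    zero_add, Nat.choose_self, Nat.add_zero, Nat.choose_one_right, Nat.add_sub_cancel]
  have e2 : Nat.choose 1 2 = 0 := rfl
  have e3 : Nat.choose 0 2 = 0 := rfl
  simp only [e2, e3, pow_zero, mul_one, one_mul]
  have hi1 : (1 : ℝ⟦X⟧)⁻¹ = 1 := by simp
  rw [hi1]
  linear_combination (-C a) * ((1 - C b * C c) * (1 - C b * X) * (1 - C c * X)) * hinv

theorem c0 (φ ψ : ℝ⟦X⟧) : coeff 0 (φ * ψ) = coeff 0 φ * coeff 0 ψ := by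
  simp [PowerSeries.coeff_mul]

theorem c1 (φ ψ : ℝ⟦X⟧) :
    coeff 1 (φ * ψ) = coeff 0 φ * coeff 1 ψ + coeff 1 φ * coeff 0 ψ := by
  simp [PowerSeries.coeff_mul, Finset.Nat.antidiagonal_succ]

theorem c2 (φ ψ : ℝ⟦X⟧) :
    coeff 2 (φ * ψ) = coeff 0 φ * coeff 2 ψ + coeff 1 φ * coeff 1 ψ + coeff 2 φ * coeff 0 ψ := by
  simp [PowerSeries.coeff_mul, Finset.Nat.antidiagonal_succ]
  ring

theorem X0 : coeff 0 (X : ℝ⟦X⟧) = 0 := by simp
theorem X1 : coeff 1 (X : ℝ⟦X⟧) = 1 := by simp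
theorem X2 : coeff 2 (X : ℝ⟦X⟧) = 0 := by simp [PowerSeries.coeff_X]
theorem C0 (r : ℝ) : coeff 0 (C r : ℝ⟦X⟧) = r := by simp
theorem C1 (r : ℝ) : coeff 1 (C r : ℝ⟦X⟧) = 0 := by simp [PowerSeries.coeff_C]
theorem C2 (r : ℝ) : coeff 2 (C r : ℝ⟦X⟧) = 0 := by simp [PowerSeries.coeff_C]
theorem one0 : coeff 0 (1 : ℝ⟦X⟧) = 1 := by simp
theorem one1 : coeff 1 (1 : ℝ⟦X⟧) = 0 := by simp [PowerSeries.coeff_one]
theorem one2 : coeff 2 (1 : ℝ⟦X⟧) = 0 := by simp [PowerSeries.coeff_one]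
theorem two0 : coeff 0 (2 : ℝ⟦X⟧) = 2 := by
  have : (2 : ℝ⟦X⟧) = C 2 := (map_ofNat C 2).symm
  rw [this, C0]
theorem two1 : coeff 1 (2 : ℝ⟦X⟧) = 0 := by
  have : (2 : ℝ⟦X⟧) = C 2 := (map_ofNat C 2).symm
  rw [this, C1]
theorem two2 : coeff 2 (2 : ℝ⟦X⟧) = 0 := by
  have : (2 : ℝ⟦X⟧) = C 2 := (map_ofNat C 2).symm
  rw [this, C2]

theorem cleared {x a b c q : ℝ} (hq : -1 < q ∧ q < 1) {κ : ℝ⟦X⟧}
    (h : G x a b c q 1 = κ * rhs x a b c q 1) :
    G x a b c q 1 * ((1 - C a * X) * (1 - C b * X) * (1 - C c * X) * (1 - C a * C b * C c * X)) =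
      κ * (((2 * C x - (C b + C c + X - C b * C c * X)) * (1 - C a * C b * C c * X)
        - C a * ((1 - C b * C c) * (1 - C b * X) * (1 - C c * X))) * G x a b c q 0) := by
  have hP : constantCoeff (P a b c q 1) ≠ 0 := by rw [P_one]; simp
  have hinv : (P a b c q 1)⁻¹ * P a b c q 1 = 1 := PowerSeries.inv_mul_cancel _ hP
  rw [← AW_one x a b c q hq, ← P_one a b c q, h, rhs]
  linear_combination (κ * AW x a b c q 1 * G x a b c q 0 * (1 - C a * C b * C c * X)) * hinv

theorem G_coeff (x a b c q : ℝ) (n i : ℕ) :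
    coeff i (G x a b c q n) = psi x a b c q (i + n) / qPoch q q i := by
  simp [G]

theorem key {x a b c q : ℝ} (hq : -1 < q ∧ q < 1) {κ : ℝ⟦X⟧}
    (h : G x a b c q 1 = κ * rhs x a b c q 1) :
    (2 * x - (a + b + c - a * b * c)) = coeff 0 κ * (2 * x - (a + b + c - a * b * c)) ∧
    (coeff 0 κ = 1 → coeff 1 κ * (2 * x - (a + b + c - a * b * c)) =
      - (a * b * c * (2 + q)) * (2 * x - (a + b + c - a * b * c))) := by
  have h1 : (1 - q) ≠ 0 := by linarith [hq.2]
  have hh := cleared hq h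
  have e0 := congrArg (coeff 0) hh
  have e1 := congrArg (coeff 1) hh
  simp only [c0, c1, map_sub, map_add, X0, X1, C0, C1, one0, one1, two0, two1, G_coeff,
    qPoch, psi, Finset.prod_range_succ, Finset.prod_range_zero, pow_zero, pow_one, zero_add]
    at e0 e1
  constructor
  · linear_combination e0
  · intro hk
    rw [hk] at e1
    have h1' : (1 * (1 - q * 1)) ≠ 0 := by simpa using h1
    field_simp at e1
    apply mul_left_cancel₀ h1
    linear_combination -e1

theorem key2 {x a b c q : ℝ} (hq : -1 < q ∧ q < 1) {κ : ℝ⟦X⟧}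
    (h : G x a b c q 1 = κ * rhs x a b c q 1) (hk : coeff 0 κ = 1)
    (hk1 : coeff 1 κ = - (a * b * c * (2 + q))) :
    (1 - q) * (1 - q ^ 2) * coeff 2 κ * psi x a b c q 1 =
      psi x a b c q 3 - (a + b + c + a * b * c) * (1 - q ^ 2) * psi x a b c q 2
      + (a * b + a * c + b * c + (a + b + c) * (a * b * c)) * (1 - q) * (1 - q ^ 2)
        * psi x a b c q 1
      - (psi x a b c q 1 * psi x a b c q 2
        + (-(1 - b * c) - a * b * c * (2 * x - (b + c)) + a * (1 - b * c) * (b + c))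
          * (1 - q ^ 2) * psi x a b c q 1)
      + (a * b * c * (2 + q)) * (psi x a b c q 1 * (1 - q ^ 2) * psi x a b c q 1
        + (-(1 - b * c) - a * b * c * (2 * x - (b + c)) + a * (1 - b * c) * (b + c))
          * (1 - q) * (1 - q ^ 2)) := by
  have h1 : (1 - q) ≠ 0 := by linarith [hq.2]
  have h2 : (1 - q ^ 2) ≠ 0 := by nlinarith [hq.1, hq.2]
  have hh := cleared hq h
  have e2 := congrArg (coeff 2) hh
  simp only [c0, c1, c2, map_sub, map_add, X0, X1, X2, C0, C1, C2, one0, one1, one2,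
    two0, two1, two2, G_coeff,
    qPoch, psi, Finset.prod_range_succ, Finset.prod_range_zero, pow_zero, pow_one, zero_add]
    at e2
  rw [hk, hk1] at e2
  have h1' : (1 * (1 - q * 1)) ≠ 0 := by simpa using h1
  have h2' : (1 * (1 - q * 1) * (1 - q * q)) ≠ 0 := by
    have : 1 - q * q ≠ 0 := by simpa [pow_two] using h2
    simpa [this] using h1
  field_simp at e2
  simp only [psi, pow_zero, pow_one, zero_add]
  linear_combination -e2

/-- For `-1 < q < 1` and `a*b*c ≠ 0` the proposed formula fails at `n = 1`: it fails for every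
real `x` off the zero of `ψ_1`, and it cannot be repaired by any factor `κ(t)` independent of
`x` (that is, by any change of normalisation). -/
theorem result (q a b c : ℝ) (hq : -1 < q ∧ q < 1) (ha : a ≠ 0) (hb : b ≠ 0) (hc : c ≠ 0) :
    (∀ x : ℝ, psi x a b c q 1 ≠ 0 → G x a b c q 1 ≠ rhs x a b c q 1) ∧
    ¬ ∃ κ : ℝ⟦X⟧, ∀ x : ℝ, G x a b c q 1 = κ * rhs x a b c q 1 := by
  have habc : a * b * c ≠ 0 := mul_ne_zero (mul_ne_zero ha hb) hc
  constructor
  · intro x hx h
    have h' : G x a b c q 1 = 1 * rhs x a b c q 1 := by rw [one_mul]; exact h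
    obtain ⟨-, k1⟩ := key hq h'
    have hx' : 2 * x - (a + b + c - a * b * c) ≠ 0 := by simpa [psi] using hx
    have k2 := k1 one0
    rw [one1, zero_mul] at k2
    have h2q : (2 + q) ≠ 0 := by linarith [hq.1]
    have : (a * b * c * (2 + q)) * (2 * x - (a + b + c - a * b * c)) = 0 := by linarith
    exact (mul_ne_zero (mul_ne_zero habc h2q) hx') this
  · rintro ⟨κ, h⟩
    have hk : coeff 0 κ = 1 := by
      obtain ⟨e, -⟩ := key hq (h ((a + b + c - a * b * c + 1) / 2))
      have : 2 * ((a + b + c - a * b * c + 1) / 2) - (a + b + c - a * b * c) = 1 := by ring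
      rw [this] at e
      linarith
    have hk1 : coeff 1 κ = - (a * b * c * (2 + q)) := by
      obtain ⟨-, e⟩ := key hq (h ((a + b + c - a * b * c + 1) / 2))
      have : 2 * ((a + b + c - a * b * c + 1) / 2) - (a + b + c - a * b * c) = 1 := by ring
      rw [this] at e
      have := e hk
      linarith
    have e0 := key2 hq (h 0) hk hk1
    have e1 := key2 hq (h 1) hk hk1
    have e2 := key2 hq (h 2) hk hk1
    simp only [psi, pow_zero, pow_one, zero_add] at e0 e1 e2
    have hz : (a * b * c) * (1 + q) * (1 - q) * (1 - q ^ 2) = 0 := by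
      linear_combination (-1 / 8) * (e0 - 2 * e1 + e2)
    have h1 : (1 - q) ≠ 0 := by linarith [hq.2]
    have h1' : (1 + q) ≠ 0 := by linarith [hq.1]
    have h2 : (1 - q ^ 2) ≠ 0 := by nlinarith [hq.1, hq.2]
    exact mul_ne_zero (mul_ne_zero (mul_ne_zero habc h1') h1) h2 hz

end Pool.Agent.Results.MP_93f727_an.FailsAtOne
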